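import Mathlib

namespace Pool.Agent.Results.MP_e04167_ag.Genus2

open Polynomial

def SG (n : ℕ) : Set (Fin n → ℂ) :=
  {z | (∀ i : Fin n, i.val = 0 → z i = 0) ∧ ∃ l : Fin n → ℂ,
    (X ^ n + ∑ i : Fin n, C (z i) * X ^ (n - 1 - i.val) : ℂ[X]) = ∏ i, (X - C (l i)) ∧
    ∏ i : Fin n, ∏ j ∈ Finset.Ioi i, (l i - l j) ^ 2 = 1}

def Γ : Set (ℂ × ℂ) := {p | p.2 ^ 2 = p.1 ^ 5 + 16 ∧ p.1 ≠ 0}

lemma sq (a : ℂ) : ∃ r : ℂ, r ^ 2 = a := IsAlgClosed.exists_pow_nat_eq a (by norm_num)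

lemma mem (w y : ℂ) (h : y ^ 2 = w ^ 5 + 16) (hw : w ≠ 0) :
    ![0, y / (2 * w), 0, 1 / w ^ 2, 0] ∈ SG 5 := by
  obtain ⟨d, hd⟩ := sq (w ^ 3 / 4)
  obtain ⟨r, hr⟩ := sq ((-(y / (2 * w)) + d) / 2)
  obtain ⟨s, hs⟩ := sq ((-(y / (2 * w)) - d) / 2)
  have h1 : r ^ 2 + s ^ 2 = -(y / (2 * w)) := by rw [hr, hs]; ring
  have h3 : r ^ 2 - s ^ 2 = d := by rw [hr, hs]; ring
  have h2 : r ^ 2 * s ^ 2 = 1 / w ^ 2 := by
    have e : r ^ 2 * s ^ 2 = ((y / (2 * w)) ^ 2 - d ^ 2) / 4 := by rw [hr, hs]; ring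
    rw [e, hd, div_pow, h]
    field_simp
    ring
  refine ⟨fun i hi => ?_, ![0, r, -r, s, -s], ?_, ?_⟩
  · fin_cases i <;> simp_all
  · have e1 : y / (2 * w) = -(r ^ 2 + s ^ 2) := by rw [h1]; ring
    rw [e1, ← h2]
    simp [Fin.sum_univ_succ, Fin.prod_univ_succ]
    ring
  · have e : ∏ i : Fin 5, ∏ j ∈ Finset.Ioi i, (![0, r, -r, s, -s] i - ![0, r, -r, s, -s] j) ^ 2
        = 16 * (r ^ 2 * s ^ 2) ^ 3 * ((r ^ 2 - s ^ 2) ^ 2) ^ 2 := by
      simp [Fin.prod_univ_succ, Fin.prod_Ioi_succ]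
      ring
    rw [e, h2, h3, hd]
    field_simp
    norm_num

theorem result : (X ^ 5 + 16 : ℂ[X]).Separable ∧
    Irreducible (X ^ 2 - C (X ^ 5 + 16) : ℂ[X][X]) ∧
    ∃ f : ℂ × ℂ → Fin 5 → ℂ, DifferentiableOn ℂ f {p | p.1 ≠ 0} ∧ Set.MapsTo f Γ (SG 5) ∧
      (f '' Γ).Infinite := by
  refine ⟨?_, ?_, fun p => ![0, p.2 / (2 * p.1), 0, 1 / p.1 ^ 2, 0], ?_,
    fun p hp => mem _ _ hp.1 hp.2, ?_⟩
  · have := separable_X_pow_sub_C (n := 5) (-16 : ℂ) (by norm_num) (by norm_num)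
    simpa [sub_neg_eq_add, map_ofNat] using this
  · have hm : (X ^ 2 - C (X ^ 5 + 16) : ℂ[X][X]).Monic := monic_X_pow_sub_C _ (by norm_num)
    have hd : (X ^ 2 - C (X ^ 5 + 16) : ℂ[X][X]).natDegree = 2 := natDegree_X_pow_sub_C
    rw [hm.irreducible_iff_roots_eq_zero_of_degree_le_three (by omega) (by omega),
      Multiset.eq_zero_iff_forall_notMem]
    intro a ha
    rw [mem_roots hm.ne_zero, IsRoot, eval_sub, eval_pow, eval_X, eval_C, sub_eq_zero] at ha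
    have h1 := congrArg natDegree ha
    have h2 : (X ^ 5 + 16 : ℂ[X]).natDegree = 5 := by compute_degree!
    rw [natDegree_pow, h2] at h1
    omega
  · rw [differentiableOn_pi]
    intro i
    fin_cases i
    · simp
    · change DifferentiableOn ℂ (fun p : ℂ × ℂ => p.2 / (2 * p.1)) _
      intro p hp
      have hp' : 2 * p.1 ≠ 0 := mul_ne_zero two_ne_zero hp
      simp only [div_eq_mul_inv]
      fun_prop (disch := assumption)
    · simp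
    · change DifferentiableOn ℂ (fun p : ℂ × ℂ => 1 / p.1 ^ 2) _
      intro p hp
      have hp' : p.1 ^ 2 ≠ 0 := pow_ne_zero _ hp
      simp only [div_eq_mul_inv]
      fun_prop (disch := assumption)
    · simp
  · choose g hg using sq
    refine Set.infinite_of_injective_forall_mem
      (f := fun n : ℕ => (![0, g (((n : ℂ) + 1) ^ 5 + 16) / (2 * ((n : ℂ) + 1)), 0,
        1 / ((n : ℂ) + 1) ^ 2, 0] : Fin 5 → ℂ)) (fun a b hab => ?_) fun n => ?_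
    · have h := congrFun hab 3
      simp only [Matrix.cons_val, one_div, inv_inj] at h
      have h' : (a + 1) ^ 2 = (b + 1) ^ 2 := by exact_mod_cast h
      have := Nat.pow_left_injective (by norm_num) h'
      omega
    · exact ⟨((n : ℂ) + 1, g (((n : ℂ) + 1) ^ 5 + 16)), ⟨hg _, Nat.cast_add_one_ne_zero n⟩, rfl⟩

end Pool.Agent.Results.MP_e04167_ag.Genus2
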